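import Pool.Agent.Lib.MP_715591_co.Sound
import Pool.Agent.Lib.MP_715591_co.Cert0
import Pool.Agent.Lib.MP_715591_co.Cert1
import Pool.Agent.Lib.MP_715591_co.Cert2
import Pool.Agent.Lib.MP_715591_co.Cert3
import Pool.Agent.Lib.MP_715591_co.Cert4
import Pool.Agent.Lib.MP_715591_co.Cert5

/-!
All positions of the table are safe.
-/

namespace Pool.Agent.Lib.MP_715591_co

theorem pats_all : ∀ i < 134, PatOK (PT.get i) := chkP_sound pats_ok (by simp)

theorem upto0 : ∀ i < 1520, NodeOK (TT.get i) :=
  (chkL_sound pats_all c1500
    (chkL_sound pats_all c1480
    (chkL_sound pats_all c1460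
    (chkL_sound pats_all c1440
    (chkL_sound pats_all c1420
    (chkL_sound pats_all c1400
    (chkL_sound pats_all c1380
    (chkL_sound pats_all c1360
    (chkL_sound pats_all c1340
    (chkL_sound pats_all c1320
    (chkL_sound pats_all c1300
    (chkL_sound pats_all c1280
    (chkL_sound pats_all c1260
    (chkL_sound pats_all c1240
    (chkL_sound pats_all c1220
    (chkL_sound pats_all c1200
    (chkL_sound pats_all c1180
    (chkL_sound pats_all c1160
    (chkL_sound pats_all c1140
    (chkL_sound pats_all c1120
    (chkL_sound pats_all c1100
    (chkL_sound pats_all c1080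
    (chkL_sound pats_all c1060
    (chkL_sound pats_all c1040
    (chkL_sound pats_all c1020
    (chkL_sound pats_all c1000
    (chkL_sound pats_all c980
    (chkL_sound pats_all c960
    (chkL_sound pats_all c940
    (chkL_sound pats_all c920
    (chkL_sound pats_all c900
    (chkL_sound pats_all c880
    (chkL_sound pats_all c860
    (chkL_sound pats_all c840
    (chkL_sound pats_all c820
    (chkL_sound pats_all c800
    (chkL_sound pats_all c780
    (chkL_sound pats_all c760
    (chkL_sound pats_all c740
    (chkL_sound pats_all c720
    (chkL_sound pats_all c700
    (chkL_sound pats_all c680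
    (chkL_sound pats_all c660
    (chkL_sound pats_all c640
    (chkL_sound pats_all c620
    (chkL_sound pats_all c600
    (chkL_sound pats_all c580
    (chkL_sound pats_all c560
    (chkL_sound pats_all c540
    (chkL_sound pats_all c520
    (chkL_sound pats_all c500
    (chkL_sound pats_all c480
    (chkL_sound pats_all c460
    (chkL_sound pats_all c440
    (chkL_sound pats_all c420
    (chkL_sound pats_all c400
    (chkL_sound pats_all c380
    (chkL_sound pats_all c360
    (chkL_sound pats_all c340
    (chkL_sound pats_all c320
    (chkL_sound pats_all c300
    (chkL_sound pats_all c280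
    (chkL_sound pats_all c260
    (chkL_sound pats_all c240
    (chkL_sound pats_all c220
    (chkL_sound pats_all c200
    (chkL_sound pats_all c180
    (chkL_sound pats_all c160
    (chkL_sound pats_all c140
    (chkL_sound pats_all c120
    (chkL_sound pats_all c100
    (chkL_sound pats_all c80
    (chkL_sound pats_all c60
    (chkL_sound pats_all c40
    (chkL_sound pats_all c20
    (chkL_sound pats_all c0
    (by simp)))))))))))))))))))))))))))))))))))))))))))))))))))))))))))))))))))))))))))))

theorem upto1 : ∀ i < 3040, NodeOK (TT.get i) :=
  (chkL_sound pats_all c3020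
    (chkL_sound pats_all c3000
    (chkL_sound pats_all c2980
    (chkL_sound pats_all c2960
    (chkL_sound pats_all c2940
    (chkL_sound pats_all c2920
    (chkL_sound pats_all c2900
    (chkL_sound pats_all c2880
    (chkL_sound pats_all c2860
    (chkL_sound pats_all c2840
    (chkL_sound pats_all c2820
    (chkL_sound pats_all c2800
    (chkL_sound pats_all c2780
    (chkL_sound pats_all c2760
    (chkL_sound pats_all c2740
    (chkL_sound pats_all c2720
    (chkL_sound pats_all c2700
    (chkL_sound pats_all c2680
    (chkL_sound pats_all c2660
    (chkL_sound pats_all c2640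
    (chkL_sound pats_all c2620
    (chkL_sound pats_all c2600
    (chkL_sound pats_all c2580
    (chkL_sound pats_all c2560
    (chkL_sound pats_all c2540
    (chkL_sound pats_all c2520
    (chkL_sound pats_all c2500
    (chkL_sound pats_all c2480
    (chkL_sound pats_all c2460
    (chkL_sound pats_all c2440
    (chkL_sound pats_all c2420
    (chkL_sound pats_all c2400
    (chkL_sound pats_all c2380
    (chkL_sound pats_all c2360
    (chkL_sound pats_all c2340
    (chkL_sound pats_all c2320
    (chkL_sound pats_all c2300
    (chkL_sound pats_all c2280
    (chkL_sound pats_all c2260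
    (chkL_sound pats_all c2240
    (chkL_sound pats_all c2220
    (chkL_sound pats_all c2200
    (chkL_sound pats_all c2180
    (chkL_sound pats_all c2160
    (chkL_sound pats_all c2140
    (chkL_sound pats_all c2120
    (chkL_sound pats_all c2100
    (chkL_sound pats_all c2080
    (chkL_sound pats_all c2060
    (chkL_sound pats_all c2040
    (chkL_sound pats_all c2020
    (chkL_sound pats_all c2000
    (chkL_sound pats_all c1980
    (chkL_sound pats_all c1960
    (chkL_sound pats_all c1940
    (chkL_sound pats_all c1920
    (chkL_sound pats_all c1900
    (chkL_sound pats_all c1880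
    (chkL_sound pats_all c1860
    (chkL_sound pats_all c1840
    (chkL_sound pats_all c1820
    (chkL_sound pats_all c1800
    (chkL_sound pats_all c1780
    (chkL_sound pats_all c1760
    (chkL_sound pats_all c1740
    (chkL_sound pats_all c1720
    (chkL_sound pats_all c1700
    (chkL_sound pats_all c1680
    (chkL_sound pats_all c1660
    (chkL_sound pats_all c1640
    (chkL_sound pats_all c1620
    (chkL_sound pats_all c1600
    (chkL_sound pats_all c1580
    (chkL_sound pats_all c1560
    (chkL_sound pats_all c1540
    (chkL_sound pats_all c1520
    upto0))))))))))))))))))))))))))))))))))))))))))))))))))))))))))))))))))))))))))))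

theorem upto2 : ∀ i < 4560, NodeOK (TT.get i) :=
  (chkL_sound pats_all c4540
    (chkL_sound pats_all c4520
    (chkL_sound pats_all c4500
    (chkL_sound pats_all c4480
    (chkL_sound pats_all c4460
    (chkL_sound pats_all c4440
    (chkL_sound pats_all c4420
    (chkL_sound pats_all c4400
    (chkL_sound pats_all c4380
    (chkL_sound pats_all c4360
    (chkL_sound pats_all c4340
    (chkL_sound pats_all c4320
    (chkL_sound pats_all c4300
    (chkL_sound pats_all c4280
    (chkL_sound pats_all c4260
    (chkL_sound pats_all c4240
    (chkL_sound pats_all c4220
    (chkL_sound pats_all c4200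
    (chkL_sound pats_all c4180
    (chkL_sound pats_all c4160
    (chkL_sound pats_all c4140
    (chkL_sound pats_all c4120
    (chkL_sound pats_all c4100
    (chkL_sound pats_all c4080
    (chkL_sound pats_all c4060
    (chkL_sound pats_all c4040
    (chkL_sound pats_all c4020
    (chkL_sound pats_all c4000
    (chkL_sound pats_all c3980
    (chkL_sound pats_all c3960
    (chkL_sound pats_all c3940
    (chkL_sound pats_all c3920
    (chkL_sound pats_all c3900
    (chkL_sound pats_all c3880
    (chkL_sound pats_all c3860
    (chkL_sound pats_all c3840
    (chkL_sound pats_all c3820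
    (chkL_sound pats_all c3800
    (chkL_sound pats_all c3780
    (chkL_sound pats_all c3760
    (chkL_sound pats_all c3740
    (chkL_sound pats_all c3720
    (chkL_sound pats_all c3700
    (chkL_sound pats_all c3680
    (chkL_sound pats_all c3660
    (chkL_sound pats_all c3640
    (chkL_sound pats_all c3620
    (chkL_sound pats_all c3600
    (chkL_sound pats_all c3580
    (chkL_sound pats_all c3560
    (chkL_sound pats_all c3540
    (chkL_sound pats_all c3520
    (chkL_sound pats_all c3500
    (chkL_sound pats_all c3480
    (chkL_sound pats_all c3460
    (chkL_sound pats_all c3440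
    (chkL_sound pats_all c3420
    (chkL_sound pats_all c3400
    (chkL_sound pats_all c3380
    (chkL_sound pats_all c3360
    (chkL_sound pats_all c3340
    (chkL_sound pats_all c3320
    (chkL_sound pats_all c3300
    (chkL_sound pats_all c3280
    (chkL_sound pats_all c3260
    (chkL_sound pats_all c3240
    (chkL_sound pats_all c3220
    (chkL_sound pats_all c3200
    (chkL_sound pats_all c3180
    (chkL_sound pats_all c3160
    (chkL_sound pats_all c3140
    (chkL_sound pats_all c3120
    (chkL_sound pats_all c3100
    (chkL_sound pats_all c3080
    (chkL_sound pats_all c3060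
    (chkL_sound pats_all c3040
    upto1))))))))))))))))))))))))))))))))))))))))))))))))))))))))))))))))))))))))))))

theorem upto3 : ∀ i < 6080, NodeOK (TT.get i) :=
  (chkL_sound pats_all c6060
    (chkL_sound pats_all c6040
    (chkL_sound pats_all c6020
    (chkL_sound pats_all c6000
    (chkL_sound pats_all c5980
    (chkL_sound pats_all c5960
    (chkL_sound pats_all c5940
    (chkL_sound pats_all c5920
    (chkL_sound pats_all c5900
    (chkL_sound pats_all c5880
    (chkL_sound pats_all c5860
    (chkL_sound pats_all c5840
    (chkL_sound pats_all c5820
    (chkL_sound pats_all c5800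
    (chkL_sound pats_all c5780
    (chkL_sound pats_all c5760
    (chkL_sound pats_all c5740
    (chkL_sound pats_all c5720
    (chkL_sound pats_all c5700
    (chkL_sound pats_all c5680
    (chkL_sound pats_all c5660
    (chkL_sound pats_all c5640
    (chkL_sound pats_all c5620
    (chkL_sound pats_all c5600
    (chkL_sound pats_all c5580
    (chkL_sound pats_all c5560
    (chkL_sound pats_all c5540
    (chkL_sound pats_all c5520
    (chkL_sound pats_all c5500
    (chkL_sound pats_all c5480
    (chkL_sound pats_all c5460
    (chkL_sound pats_all c5440
    (chkL_sound pats_all c5420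
    (chkL_sound pats_all c5400
    (chkL_sound pats_all c5380
    (chkL_sound pats_all c5360
    (chkL_sound pats_all c5340
    (chkL_sound pats_all c5320
    (chkL_sound pats_all c5300
    (chkL_sound pats_all c5280
    (chkL_sound pats_all c5260
    (chkL_sound pats_all c5240
    (chkL_sound pats_all c5220
    (chkL_sound pats_all c5200
    (chkL_sound pats_all c5180
    (chkL_sound pats_all c5160
    (chkL_sound pats_all c5140
    (chkL_sound pats_all c5120
    (chkL_sound pats_all c5100
    (chkL_sound pats_all c5080
    (chkL_sound pats_all c5060
    (chkL_sound pats_all c5040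
    (chkL_sound pats_all c5020
    (chkL_sound pats_all c5000
    (chkL_sound pats_all c4980
    (chkL_sound pats_all c4960
    (chkL_sound pats_all c4940
    (chkL_sound pats_all c4920
    (chkL_sound pats_all c4900
    (chkL_sound pats_all c4880
    (chkL_sound pats_all c4860
    (chkL_sound pats_all c4840
    (chkL_sound pats_all c4820
    (chkL_sound pats_all c4800
    (chkL_sound pats_all c4780
    (chkL_sound pats_all c4760
    (chkL_sound pats_all c4740
    (chkL_sound pats_all c4720
    (chkL_sound pats_all c4700
    (chkL_sound pats_all c4680
    (chkL_sound pats_all c4660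
    (chkL_sound pats_all c4640
    (chkL_sound pats_all c4620
    (chkL_sound pats_all c4600
    (chkL_sound pats_all c4580
    (chkL_sound pats_all c4560
    upto2))))))))))))))))))))))))))))))))))))))))))))))))))))))))))))))))))))))))))))

theorem upto4 : ∀ i < 7600, NodeOK (TT.get i) :=
  (chkL_sound pats_all c7580
    (chkL_sound pats_all c7560
    (chkL_sound pats_all c7540
    (chkL_sound pats_all c7520
    (chkL_sound pats_all c7500
    (chkL_sound pats_all c7480
    (chkL_sound pats_all c7460
    (chkL_sound pats_all c7440
    (chkL_sound pats_all c7420
    (chkL_sound pats_all c7400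
    (chkL_sound pats_all c7380
    (chkL_sound pats_all c7360
    (chkL_sound pats_all c7340
    (chkL_sound pats_all c7320
    (chkL_sound pats_all c7300
    (chkL_sound pats_all c7280
    (chkL_sound pats_all c7260
    (chkL_sound pats_all c7240
    (chkL_sound pats_all c7220
    (chkL_sound pats_all c7200
    (chkL_sound pats_all c7180
    (chkL_sound pats_all c7160
    (chkL_sound pats_all c7140
    (chkL_sound pats_all c7120
    (chkL_sound pats_all c7100
    (chkL_sound pats_all c7080
    (chkL_sound pats_all c7060
    (chkL_sound pats_all c7040
    (chkL_sound pats_all c7020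
    (chkL_sound pats_all c7000
    (chkL_sound pats_all c6980
    (chkL_sound pats_all c6960
    (chkL_sound pats_all c6940
    (chkL_sound pats_all c6920
    (chkL_sound pats_all c6900
    (chkL_sound pats_all c6880
    (chkL_sound pats_all c6860
    (chkL_sound pats_all c6840
    (chkL_sound pats_all c6820
    (chkL_sound pats_all c6800
    (chkL_sound pats_all c6780
    (chkL_sound pats_all c6760
    (chkL_sound pats_all c6740
    (chkL_sound pats_all c6720
    (chkL_sound pats_all c6700
    (chkL_sound pats_all c6680
    (chkL_sound pats_all c6660
    (chkL_sound pats_all c6640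
    (chkL_sound pats_all c6620
    (chkL_sound pats_all c6600
    (chkL_sound pats_all c6580
    (chkL_sound pats_all c6560
    (chkL_sound pats_all c6540
    (chkL_sound pats_all c6520
    (chkL_sound pats_all c6500
    (chkL_sound pats_all c6480
    (chkL_sound pats_all c6460
    (chkL_sound pats_all c6440
    (chkL_sound pats_all c6420
    (chkL_sound pats_all c6400
    (chkL_sound pats_all c6380
    (chkL_sound pats_all c6360
    (chkL_sound pats_all c6340
    (chkL_sound pats_all c6320
    (chkL_sound pats_all c6300
    (chkL_sound pats_all c6280
    (chkL_sound pats_all c6260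
    (chkL_sound pats_all c6240
    (chkL_sound pats_all c6220
    (chkL_sound pats_all c6200
    (chkL_sound pats_all c6180
    (chkL_sound pats_all c6160
    (chkL_sound pats_all c6140
    (chkL_sound pats_all c6120
    (chkL_sound pats_all c6100
    (chkL_sound pats_all c6080
    upto3))))))))))))))))))))))))))))))))))))))))))))))))))))))))))))))))))))))))))))

theorem upto5 : ∀ i < 9086, NodeOK (TT.get i) :=
  (chkL_sound pats_all c9080
    (chkL_sound pats_all c9060
    (chkL_sound pats_all c9040
    (chkL_sound pats_all c9020
    (chkL_sound pats_all c9000
    (chkL_sound pats_all c8980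
    (chkL_sound pats_all c8960
    (chkL_sound pats_all c8940
    (chkL_sound pats_all c8920
    (chkL_sound pats_all c8900
    (chkL_sound pats_all c8880
    (chkL_sound pats_all c8860
    (chkL_sound pats_all c8840
    (chkL_sound pats_all c8820
    (chkL_sound pats_all c8800
    (chkL_sound pats_all c8780
    (chkL_sound pats_all c8760
    (chkL_sound pats_all c8740
    (chkL_sound pats_all c8720
    (chkL_sound pats_all c8700
    (chkL_sound pats_all c8680
    (chkL_sound pats_all c8660
    (chkL_sound pats_all c8640
    (chkL_sound pats_all c8620
    (chkL_sound pats_all c8600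
    (chkL_sound pats_all c8580
    (chkL_sound pats_all c8560
    (chkL_sound pats_all c8540
    (chkL_sound pats_all c8520
    (chkL_sound pats_all c8500
    (chkL_sound pats_all c8480
    (chkL_sound pats_all c8460
    (chkL_sound pats_all c8440
    (chkL_sound pats_all c8420
    (chkL_sound pats_all c8400
    (chkL_sound pats_all c8380
    (chkL_sound pats_all c8360
    (chkL_sound pats_all c8340
    (chkL_sound pats_all c8320
    (chkL_sound pats_all c8300
    (chkL_sound pats_all c8280
    (chkL_sound pats_all c8260
    (chkL_sound pats_all c8240
    (chkL_sound pats_all c8220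
    (chkL_sound pats_all c8200
    (chkL_sound pats_all c8180
    (chkL_sound pats_all c8160
    (chkL_sound pats_all c8140
    (chkL_sound pats_all c8120
    (chkL_sound pats_all c8100
    (chkL_sound pats_all c8080
    (chkL_sound pats_all c8060
    (chkL_sound pats_all c8040
    (chkL_sound pats_all c8020
    (chkL_sound pats_all c8000
    (chkL_sound pats_all c7980
    (chkL_sound pats_all c7960
    (chkL_sound pats_all c7940
    (chkL_sound pats_all c7920
    (chkL_sound pats_all c7900
    (chkL_sound pats_all c7880
    (chkL_sound pats_all c7860
    (chkL_sound pats_all c7840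
    (chkL_sound pats_all c7820
    (chkL_sound pats_all c7800
    (chkL_sound pats_all c7780
    (chkL_sound pats_all c7760
    (chkL_sound pats_all c7740
    (chkL_sound pats_all c7720
    (chkL_sound pats_all c7700
    (chkL_sound pats_all c7680
    (chkL_sound pats_all c7660
    (chkL_sound pats_all c7640
    (chkL_sound pats_all c7620
    (chkL_sound pats_all c7600
    upto4)))))))))))))))))))))))))))))))))))))))))))))))))))))))))))))))))))))))))))

theorem root_ok : NodeOK 0 := by
  have h := upto5 9085 (by norm_num)
  rwa [show TT.get 9085 = 0 by decide +kernel] at h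

end Pool.Agent.Lib.MP_715591_co
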