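import Pool.Agent.Lib.MP_715591_co.Static

/-!
Bit masks: basic operations of the checker and their meaning.
-/

namespace Pool.Agent.Lib.MP_715591_co

noncomputable section

/-- bit test -/
def tb (m i : ℕ) : Bool := Nat.beq (Nat.land (Nat.shiftRight m i) 1) 1

/-- conditional -/
def cnd {α : Type} (b : Bool) (x y : α) : α := @Bool.rec (fun _ => α) y x b

/-- conjunction -/
def an (a b : Bool) : Bool := @Bool.rec (fun _ => Bool) false b a

/-- evaluate a number first -/
def frc {α : Type} (x : ℕ) (k : ℕ → α) : α :=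
  @Nat.rec (fun _ => α) (k 0) (fun n _ => k (Nat.succ n)) x

/-- number of bits of a number below `2 ^ 16` -/
def pc (m : ℕ) : ℕ :=
  Nat.mod (Nat.land (Nat.mul m 75558007841377277706241) 40891954846071916177313006625) 31

/-- bit `w` goes to bit `16 w` -/
def spread (m : ℕ) : ℕ :=
  Nat.land (Nat.mul (Nat.land m 32767)
    1645554775667631445946654566302660034402731066166604967259963393)
    26960358049567167613997062649621095839284106155117402275449854296065

/-- a nibble -/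
def nib (ψ i : ℕ) : ℕ := Nat.land (Nat.shiftRight ψ (Nat.mul 4 i)) 15

/-- both orientations of an edge -/
def bit2 (a b : ℕ) : ℕ :=
  Nat.lor (Nat.shiftLeft 1 (Nat.add (Nat.mul 16 a) b)) (Nat.shiftLeft 1 (Nat.add (Nat.mul 16 b) a))

/-- inclusion of masks -/
def sub (a b : ℕ) : Bool := Nat.beq (Nat.land a b) a

/-- image of a stream of edges -/
def img (ψ st fuel : ℕ) : ℕ → ℕ :=
  @Nat.rec (fun _ => ℕ → ℕ) (fun _ => 0) (fun _ ih code => cnd (Nat.beq code 0) 0
    (frc (nib ψ (Nat.land code 15)) fun a => frc (nib ψ (Nat.land (Nat.shiftRight code 4) 15))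
      fun b => Nat.lor (bit2 a b) (frc (Nat.shiftRight code st) ih))) fuel

/-- set of the first values of a map -/
def vals (ψ k : ℕ) : ℕ :=
  @Nat.rec (fun _ => ℕ) 0 (fun i s => Nat.lor (Nat.shiftLeft 1 (nib ψ i)) s) k

/-- a row of a matrix -/
def row (M i : ℕ) : ℕ := Nat.land (Nat.shiftRight M (Nat.mul 16 i)) 65535

/-- the edges from `i` to the set `m` -/
def rowcol (i m : ℕ) : ℕ := Nat.lor (Nat.shiftLeft m (Nat.mul 16 i)) (Nat.shiftLeft (spread m) i)

/-- bounded universal quantifier -/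
def allN (k : ℕ) (f : ℕ → Bool) : Bool := @Nat.rec (fun _ => Bool) true (fun i s => an (f i) s) k

/-- number of bits below `k` -/
def cntB (m k : ℕ) : ℕ := @Nat.rec (fun _ => ℕ) 0 (fun i s => cnd (tb m i) (Nat.succ s) s) k

end

@[simp] theorem tb_eq (m i : ℕ) : tb m i = m.testBit i := by
  rw [tb, Nat.testBit, Nat.land_eq, Nat.shiftRight_eq, Nat.and_comm, Nat.one_and_eq_mod_two]
  rcases Nat.mod_two_eq_zero_or_one (m >>> i) with h | h <;> rw [h] <;> rfl

@[simp] theorem cnd_eq {α : Type} (b : Bool) (x y : α) : cnd b x y = if b = true then x else y := by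
  cases b <;> rfl

@[simp] theorem an_eq (a b : Bool) : an a b = true ↔ a = true ∧ b = true := by
  cases a <;> simp [an]

@[simp] theorem frc_eq {α : Type} (x : ℕ) (k : ℕ → α) : frc x k = k x := by cases x <;> rfl

theorem allN_spec {k : ℕ} {f : ℕ → Bool} (h : allN k f = true) : ∀ i < k, f i = true := by
  induction k with
  | zero => intro i hi; omega
  | succ k ih =>
    have h' : an (f k) (allN k f) = true := h
    rw [an_eq] at h'
    intro i hi
    rcases Nat.lt_succ_iff_lt_or_eq.1 hi with hi | rfl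
    exacts [ih h'.2 i hi, h'.1]

theorem allN2 {f : ℕ → Bool} {a b : ℕ} (h : allN a (fun i => allN b fun j => f (b * i + j)) = true)
    (m : ℕ) (hm : m < a * b) : f m = true := by
  have hb : 0 < b := Nat.pos_of_ne_zero fun h => by simp [h] at hm
  have := allN_spec (allN_spec h (m / b) ((Nat.div_lt_iff_lt_mul hb).2 hm)) (m % b) (Nat.mod_lt _ hb)
  rwa [Nat.div_add_mod] at this

theorem cntB_eq (m k : ℕ) : cntB m k = ((Finset.range k).filter fun i => m.testBit i).card := by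
  induction k with
  | zero => rfl
  | succ k ih =>
    have : cntB m (k + 1) = cnd (tb m k) (Nat.succ (cntB m k)) (cntB m k) := rfl
    rw [this, Finset.range_add_one, Finset.filter_insert, cnd_eq, tb_eq, ih]
    split_ifs
    · rw [Finset.card_insert_of_notMem (by simp)]
    · rfl

theorem nib_lt (ψ i : ℕ) : nib ψ i < 16 := Nat.lt_succ_of_le Nat.and_le_right

theorem sub_spec {a b : ℕ} (h : sub a b = true) {i : ℕ} (hi : a.testBit i = true) :
    b.testBit i = true := by
  rw [sub, Nat.beq_eq, Nat.land_eq] at h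
  rw [← h, Nat.testBit_and, Bool.and_eq_true] at hi
  exact hi.2

theorem tb_one (k i : ℕ) : (Nat.shiftLeft 1 k).testBit i = true ↔ i = k := by
  rw [Nat.shiftLeft_eq', Nat.one_shiftLeft, Nat.testBit_two_pow, decide_eq_true_eq, eq_comm]

theorem tb_lor (a b i : ℕ) : (Nat.lor a b).testBit i = true ↔
    a.testBit i = true ∨ b.testBit i = true := by
  rw [Nat.lor_eq, Nat.testBit_or, Bool.or_eq_true]

theorem tb_land (a b i : ℕ) : (Nat.land a b).testBit i = true ↔
    a.testBit i = true ∧ b.testBit i = true := by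
  rw [Nat.land_eq, Nat.testBit_and, Bool.and_eq_true]

theorem tb_xor (a b i : ℕ) : (Nat.xor a b).testBit i = true ↔
    ¬ (a.testBit i = true ↔ b.testBit i = true) := by
  rw [Nat.xor_eq, Nat.testBit_xor]; cases a.testBit i <;> cases b.testBit i <;> simp

theorem tb_full (i : ℕ) : Nat.testBit 65535 i = true ↔ i < 16 := by
  rw [show 65535 = 2 ^ 16 - 1 from rfl, Nat.testBit_two_pow_sub_one, decide_eq_true_eq]

theorem tb_bit2 (a b i : ℕ) : (bit2 a b).testBit i = true ↔ i = 16 * a + b ∨ i = 16 * b + a := by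
  rw [bit2, tb_lor, tb_one, tb_one]; rfl

theorem tb_row (M i w : ℕ) : (row M i).testBit w = true ↔
    w < 16 ∧ M.testBit (16 * i + w) = true := by
  rw [row, tb_land, tb_full, Nat.shiftRight_eq, Nat.testBit_shiftRight, and_comm]; rfl

theorem tb_vals (ψ k w : ℕ) : (vals ψ k).testBit w = true ↔ ∃ i < k, nib ψ i = w := by
  induction k with
  | zero => simp [vals]
  | succ k ih =>
    have : vals ψ (k + 1) = Nat.lor (Nat.shiftLeft 1 (nib ψ k)) (vals ψ k) := rfl
    rw [this, tb_lor, tb_one, ih]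
    constructor
    · rintro (h | ⟨i, hi, h⟩)
      exacts [⟨k, by omega, h.symm⟩, ⟨i, by omega, h⟩]
    · rintro ⟨i, hi, h⟩
      rcases Nat.lt_succ_iff_lt_or_eq.1 hi with hi | rfl
      exacts [Or.inr ⟨i, hi, h⟩, Or.inl h.symm]

theorem lt_of_bits {m k : ℕ} (h : ∀ i, m.testBit i = true → i < k) : m < 2 ^ k :=
  Nat.lt_pow_two_of_testBit m fun i hi => by
    by_contra hh
    have := h i (by simpa using hh)
    omega

theorem bits_of_lt {m k i : ℕ} (h : m < 2 ^ k) (hi : m.testBit i = true) : i < k := by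
  by_contra hh
  rw [Nat.testBit_lt_two_pow (lt_of_lt_of_le h (Nat.pow_le_pow_right (by omega) (by omega)))] at hi
  exact Bool.false_ne_true hi

/-- decoded stream -/
def dl (st : ℕ) : ℕ → ℕ → List (ℕ × ℕ)
  | 0, _ => []
  | f + 1, code => if code = 0 then [] else
      (Nat.land code 15, Nat.land (Nat.shiftRight code 4) 15) :: dl st f (Nat.shiftRight code st)

theorem dl_lt {st f code : ℕ} {z : ℕ × ℕ} (h : z ∈ dl st f code) : z.1 < 16 ∧ z.2 < 16 := by
  induction f generalizing code with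
  | zero => simp [dl] at h
  | succ f ih =>
    rw [dl] at h
    split_ifs at h
    · simp at h
    · rcases List.mem_cons.1 h with rfl | h
      exacts [⟨Nat.lt_succ_of_le Nat.and_le_right, Nat.lt_succ_of_le Nat.and_le_right⟩, ih h]

theorem tb_img (ψ st f code i : ℕ) : (img ψ st f code).testBit i = true ↔
    ∃ z ∈ dl st f code, i = 16 * nib ψ z.1 + nib ψ z.2 ∨ i = 16 * nib ψ z.2 + nib ψ z.1 := by
  induction f generalizing code with
  | zero => simp [img, dl]
  | succ f ih =>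
    have : img ψ st (f + 1) code = cnd (Nat.beq code 0) 0
      (frc (nib ψ (Nat.land code 15)) fun a => frc (nib ψ (Nat.land (Nat.shiftRight code 4) 15))
        fun b => Nat.lor (bit2 a b) (frc (Nat.shiftRight code st) (img ψ st f))) := rfl
    rw [this, cnd_eq, dl]
    simp only [Nat.beq_eq, frc_eq]
    split_ifs
    · simp
    · rw [tb_lor, tb_bit2, ih, List.exists_mem_cons_iff]

/-- edge set of a mask -/
def ES (M : ℕ) : Set E := {e | ∃ a < 16, ∃ b < 16, M.testBit (16 * a + b) = true ∧ e = s(a, b)}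

/-- edge set of a list under a map -/
def SE (φ : ℕ → ℕ) (l : List (ℕ × ℕ)) : Set E := {e | ∃ z ∈ l, e = s(φ z.1, φ z.2)}

/-- symmetric masks -/
def Sy (M : ℕ) : Prop :=
  ∀ a < 16, ∀ b < 16, M.testBit (16 * a + b) = true → M.testBit (16 * b + a) = true

theorem ES_finite (M : ℕ) : (ES M).Finite := by
  refine (((Set.finite_Iio 16).prod (Set.finite_Iio 16)).image fun z => s(z.1, z.2)).subset ?_
  rintro _ ⟨a, ha, b, hb, -, rfl⟩
  exact ⟨(a, b), ⟨ha, hb⟩, rfl⟩

theorem img_cases {ψ st f code a b : ℕ} (ha : a < 16) (hb : b < 16)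
    (h : (img ψ st f code).testBit (16 * a + b) = true) :
    ∃ z ∈ dl st f code, (a = nib ψ z.1 ∧ b = nib ψ z.2) ∨ (a = nib ψ z.2 ∧ b = nib ψ z.1) := by
  obtain ⟨z, hz, h⟩ := (tb_img _ _ _ _ _).1 h
  have := nib_lt ψ z.1
  have := nib_lt ψ z.2
  exact ⟨z, hz, by omega⟩

theorem ES_img (ψ st f code : ℕ) : ES (img ψ st f code) = SE (nib ψ) (dl st f code) := by
  ext e
  constructor
  · rintro ⟨a, ha, b, hb, h, rfl⟩
    obtain ⟨z, hz, ⟨rfl, rfl⟩ | ⟨rfl, rfl⟩⟩ := img_cases ha hb h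
    exacts [⟨z, hz, rfl⟩, ⟨z, hz, Sym2.eq_swap⟩]
  · rintro ⟨z, hz, rfl⟩
    exact ⟨_, nib_lt _ _, _, nib_lt _ _, (tb_img _ _ _ _ _).2 ⟨z, hz, Or.inl rfl⟩, rfl⟩

theorem Sy_img (ψ st f code : ℕ) : Sy (img ψ st f code) := by
  intro a ha b hb h
  obtain ⟨z, hz, ⟨rfl, rfl⟩ | ⟨rfl, rfl⟩⟩ := img_cases ha hb h
  exacts [(tb_img _ _ _ _ _).2 ⟨z, hz, Or.inr rfl⟩, (tb_img _ _ _ _ _).2 ⟨z, hz, Or.inl rfl⟩]

theorem Sy.mem {M : ℕ} (h : Sy M) {a b : ℕ} :
    s(a, b) ∈ ES M ↔ a < 16 ∧ b < 16 ∧ M.testBit (16 * a + b) = true := by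
  constructor
  · rintro ⟨c, hc, d, hd, hb, e⟩
    rcases Sym2.eq_iff.1 e with ⟨rfl, rfl⟩ | ⟨rfl, rfl⟩
    exacts [⟨hc, hd, hb⟩, ⟨hd, hc, h _ hc _ hd hb⟩]
  · rintro ⟨ha, hb, h⟩
    exact ⟨a, ha, b, hb, h, rfl⟩

theorem ES_sub {A B : ℕ} (h : sub A B = true) : ES A ⊆ ES B := by
  rintro _ ⟨a, ha, b, hb, hh, rfl⟩
  exact ⟨a, ha, b, hb, sub_spec h hh, rfl⟩

theorem ES_ins (M : ℕ) {x y : ℕ} (hx : x < 16) (hy : y < 16) :
    ES (Nat.lor M (bit2 x y)) = insert s(x, y) (ES M) := by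
  ext e
  constructor
  · rintro ⟨a, ha, b, hb, h, rfl⟩
    rcases (tb_lor _ _ _).1 h with h | h
    · exact Or.inr ⟨a, ha, b, hb, h, rfl⟩
    · refine Or.inl (Sym2.eq_iff.2 ?_)
      rw [tb_bit2] at h; omega
  · rintro (rfl | ⟨a, ha, b, hb, h, rfl⟩)
    · exact ⟨x, hx, y, hy, (tb_lor _ _ _).2 (Or.inr ((tb_bit2 _ _ _).2 (Or.inl rfl))), rfl⟩
    · exact ⟨a, ha, b, hb, (tb_lor _ _ _).2 (Or.inl h), rfl⟩

theorem Sy.ins {M : ℕ} (h : Sy M) (x y : ℕ) (hx : x < 16) (hy : y < 16) :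
    Sy (Nat.lor M (bit2 x y)) := by
  intro a ha b hb hh
  rw [tb_lor, tb_bit2] at hh ⊢
  rcases hh with hh | hh
  · exact Or.inl (h a ha b hb hh)
  · right; omega

theorem nib_id {i : ℕ} (h : i < 16) : nib 18364758544493064720 i = i := by
  have : allN 16 (fun i => Nat.beq (nib 18364758544493064720 i) i) = true := by decide +kernel
  simpa using allN_spec this i h

end Pool.Agent.Lib.MP_715591_co
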