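import Pool.Agent.Lib.MP_715591_co.Bits

/-!
Counting bits and spreading bits.
-/

namespace Pool.Agent.Lib.MP_715591_co

/-- test of the bit count -/
noncomputable def pcOK (m : ℕ) : Bool := frc m fun m => Nat.beq (pc m) (cntB m 16)

theorem pc0 : allN 16 (fun i => allN 256 fun j => pcOK (Nat.add 0 (256 * i + j))) = true := by
  decide +kernel
theorem pc1 : allN 16 (fun i => allN 256 fun j => pcOK (Nat.add 4096 (256 * i + j))) = true := by
  decide +kernel
theorem pc2 : allN 16 (fun i => allN 256 fun j => pcOK (Nat.add 8192 (256 * i + j))) = true := by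
  decide +kernel
theorem pc3 : allN 16 (fun i => allN 256 fun j => pcOK (Nat.add 12288 (256 * i + j))) = true := by
  decide +kernel
theorem pc4 : allN 16 (fun i => allN 256 fun j => pcOK (Nat.add 16384 (256 * i + j))) = true := by
  decide +kernel
theorem pc5 : allN 16 (fun i => allN 256 fun j => pcOK (Nat.add 20480 (256 * i + j))) = true := by
  decide +kernel
theorem pc6 : allN 16 (fun i => allN 256 fun j => pcOK (Nat.add 24576 (256 * i + j))) = true := by
  decide +kernel
theorem pc7 : allN 16 (fun i => allN 256 fun j => pcOK (Nat.add 28672 (256 * i + j))) = true := by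
  decide +kernel
theorem pc8 : allN 16 (fun i => allN 256 fun j => pcOK (Nat.add 32768 (256 * i + j))) = true := by
  decide +kernel
theorem pc9 : allN 16 (fun i => allN 256 fun j => pcOK (Nat.add 36864 (256 * i + j))) = true := by
  decide +kernel
theorem pc10 : allN 16 (fun i => allN 256 fun j => pcOK (Nat.add 40960 (256 * i + j))) = true := by
  decide +kernel
theorem pc11 : allN 16 (fun i => allN 256 fun j => pcOK (Nat.add 45056 (256 * i + j))) = true := by
  decide +kernel
theorem pc12 : allN 16 (fun i => allN 256 fun j => pcOK (Nat.add 49152 (256 * i + j))) = true := by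
  decide +kernel
theorem pc13 : allN 16 (fun i => allN 256 fun j => pcOK (Nat.add 53248 (256 * i + j))) = true := by
  decide +kernel
theorem pc14 : allN 16 (fun i => allN 256 fun j => pcOK (Nat.add 57344 (256 * i + j))) = true := by
  decide +kernel
theorem pc15 : allN 16 (fun i => allN 256 fun j => pcOK (Nat.add 61440 (256 * i + j))) = true := by
  decide +kernel

theorem pc_eq {m : ℕ} (hm : m < 65536) :
    pc m = ((Finset.range 16).filter fun i => m.testBit i).card := by
  have key : ∀ k, allN 16 (fun i => allN 256 fun j => pcOK (Nat.add k (256 * i + j))) = true →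
      k ≤ m → m < k + 4096 → pcOK m = true := by
    intro k h h1 h2
    have := allN2 (f := fun x => pcOK (Nat.add k x)) h (m - k) (by omega)
    rwa [Nat.add_eq, Nat.add_sub_cancel' h1] at this
  have : pcOK m = true := by
    by_cases h0 : m < 4096
    · exact key _ pc0 (by omega) (by omega)
    by_cases h1 : m < 8192
    · exact key _ pc1 (by omega) (by omega)
    by_cases h2 : m < 12288
    · exact key _ pc2 (by omega) (by omega)
    by_cases h3 : m < 16384
    · exact key _ pc3 (by omega) (by omega)
    by_cases h4 : m < 20480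
    · exact key _ pc4 (by omega) (by omega)
    by_cases h5 : m < 24576
    · exact key _ pc5 (by omega) (by omega)
    by_cases h6 : m < 28672
    · exact key _ pc6 (by omega) (by omega)
    by_cases h7 : m < 32768
    · exact key _ pc7 (by omega) (by omega)
    by_cases h8 : m < 36864
    · exact key _ pc8 (by omega) (by omega)
    by_cases h9 : m < 40960
    · exact key _ pc9 (by omega) (by omega)
    by_cases h10 : m < 45056
    · exact key _ pc10 (by omega) (by omega)
    by_cases h11 : m < 49152
    · exact key _ pc11 (by omega) (by omega)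
    by_cases h12 : m < 53248
    · exact key _ pc12 (by omega) (by omega)
    by_cases h13 : m < 57344
    · exact key _ pc13 (by omega) (by omega)
    by_cases h14 : m < 61440
    · exact key _ pc14 (by omega) (by omega)
    exact key _ pc15 (by omega) (by omega)
  rw [← cntB_eq]
  simpa [pcOK] using this

theorem card_le_pc {m : ℕ} (hm : ∀ i, m.testBit i = true → i < 16) {P : Finset ℕ}
    (hP : ∀ w ∈ P, m.testBit w = true) : P.card ≤ pc m := by
  rw [pc_eq (lt_of_bits hm)]
  exact Finset.card_le_card fun w hw =>
    Finset.mem_filter.2 ⟨Finset.mem_range.2 (hm w (hP w hw)), hP w hw⟩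

theorem exists_of_pc {m k : ℕ} (hm : ∀ i, m.testBit i = true → i < 16) (hk : k ≤ pc m) :
    ∃ P : Finset ℕ, P.card = k ∧ ∀ w ∈ P, m.testBit w = true := by
  rw [pc_eq (lt_of_bits hm)] at hk
  obtain ⟨P, h1, h2⟩ := Finset.exists_subset_card_eq hk
  exact ⟨P, h2, fun w hw => (Finset.mem_filter.1 (h1 hw)).2⟩

theorem pc_mono {a b : ℕ} (ha : ∀ i, a.testBit i = true → i < 16)
    (hb : ∀ i, b.testBit i = true → i < 16) (h : ∀ i, a.testBit i = true → b.testBit i = true) :
    pc a ≤ pc b := by
  rw [pc_eq (lt_of_bits ha)]
  exact card_le_pc hb fun w hw => h w (Finset.mem_filter.1 hw).2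

theorem inj_of_pc {ψ k : ℕ} (h : pc (vals ψ k) = k) : Set.InjOn (nib ψ) (Set.Iio k) := by
  have hb : ∀ i, (vals ψ k).testBit i = true → i < 16 := fun i hi => by
    obtain ⟨j, -, rfl⟩ := (tb_vals _ _ _).1 hi
    exact nib_lt _ _
  rw [pc_eq (lt_of_bits hb)] at h
  have e : ((Finset.range 16).filter fun i => (vals ψ k).testBit i) = (Finset.range k).image (nib ψ) := by
    ext w
    simp only [Finset.mem_filter, Finset.mem_range, Finset.mem_image]
    exact ⟨fun h => (tb_vals _ _ _).1 h.2, fun h => ⟨hb w ((tb_vals _ _ _).2 h), (tb_vals _ _ _).2 h⟩⟩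
  rw [e] at h
  have := Finset.card_image_iff.1 (h.trans (Finset.card_range k).symm)
  rwa [Finset.coe_range] at this

/-- repeated blocks -/
def rep : ℕ → ℕ
  | 0 => 0
  | k + 1 => 2 ^ 15 * rep k + 1

theorem tb_rep {m : ℕ} (hm : m < 2 ^ 15) {j : ℕ} (hj : j < 15) (k w : ℕ) (hw : w < k) :
    (m * rep k).testBit (15 * w + j) = m.testBit j := by
  induction k generalizing w with
  | zero => omega
  | succ k ih =>
    rw [rep, show m * (2 ^ 15 * rep k + 1) = 2 ^ 15 * (m * rep k) + m by ring,
      Nat.testBit_two_pow_mul_add _ hm]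
    cases w with
    | zero => simp [hj]
    | succ w =>
      rw [if_neg (by omega), show 15 * (w + 1) + j - 15 = 15 * w + j by omega]
      exact ih w (by omega)

theorem tb_spread {m w : ℕ} (hw : w < 15) (h : m.testBit w = true) :
    (spread m).testBit (16 * w) = true := by
  have c : allN 15 (fun w => tb 26960358049567167613997062649621095839284106155117402275449854296065
    (16 * w)) = true := by decide +kernel
  have r : 1645554775667631445946654566302660034402731066166604967259963393 = rep 15 := by
    decide +kernel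
  rw [spread, tb_land, r, Nat.mul_eq]
  refine ⟨?_, by simpa using allN_spec c w hw⟩
  rw [show 16 * w = 15 * w + w by omega,
    tb_rep (m := Nat.land m 32767) (Nat.lt_succ_of_le Nat.and_le_right) hw 15 w hw, tb_land]
  refine ⟨h, ?_⟩
  rw [show 32767 = 2 ^ 15 - 1 from rfl, Nat.testBit_two_pow_sub_one, decide_eq_true_eq]
  exact hw

theorem tb_rowcol_row {i m w : ℕ} (h : m.testBit w = true) :
    (rowcol i m).testBit (16 * i + w) = true := by
  rw [rowcol, tb_lor, Nat.shiftLeft_eq', Nat.testBit_shiftLeft, Nat.mul_eq]
  left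
  simpa using h

theorem tb_rowcol_col {i m w : ℕ} (hw : w < 15) (h : m.testBit w = true) :
    (rowcol i m).testBit (16 * w + i) = true := by
  rw [rowcol, tb_lor, Nat.shiftLeft_eq', Nat.shiftLeft_eq', Nat.testBit_shiftLeft,
    Nat.testBit_shiftLeft]
  right
  simpa using tb_spread hw h

theorem tb_rowcol {i m w x y : ℕ} (h : m.testBit w = true) (hxy : x < y) (hy : y < 16)
    (e : s(x, y) = s(i, w)) : (rowcol i m).testBit (16 * x + y) = true := by
  rcases Sym2.eq_iff.1 e with ⟨rfl, rfl⟩ | ⟨rfl, rfl⟩
  exacts [tb_rowcol_row h, tb_rowcol_col (by omega) h]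

end Pool.Agent.Lib.MP_715591_co
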