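import Pool.Agent.Lib.MP_715591_co.Game

/-!
From safe positions to a play that the first player does not win.
-/

namespace Pool.Agent.Lib.MP_715591_co

open Classical

theorem exists_answer (X Y : Set E) : ∃ f : E, X.Finite → Y.Finite → ¬ f.IsDiag ∧ f ∉ X ∧ f ∉ Y ∧
    (HasH Y ∨ Good X Y → HasH (insert f Y) ∨ Safe X (insert f Y)) := by
  by_cases hf : X.Finite ∧ Y.Finite
  swap
  · exact ⟨s(0, 0), fun a b => absurd ⟨a, b⟩ hf⟩
  obtain ⟨g, g1, g2⟩ := exists_free (hf.1.union hf.2)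
  have g3 : g ∉ X := fun h => g2 (Or.inl h)
  have g4 : g ∉ Y := fun h => g2 (Or.inr h)
  by_cases hG : Good X Y
  · obtain ⟨-, f, f1, f2, f3⟩ := hG
    by_cases hY : f ∈ Y
    · rw [Set.insert_eq_of_mem hY] at f3
      exact ⟨g, fun _ _ => ⟨g1, g3, g4, fun _ => f3.imp (fun h => h.mono (Set.subset_insert _ _))
        fun h => h.mono subset_rfl (Set.subset_insert _ _)⟩⟩
    · exact ⟨f, fun _ _ => ⟨f1, f2, hY, fun _ => f3⟩⟩
  · exact ⟨g, fun _ _ => ⟨g1, g3, g4,
      fun h => Or.inl ((h.resolve_right hG).mono (Set.subset_insert _ _))⟩⟩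

/-- moves of one parity before a given time -/
def part (m : ℕ → E) (r n : ℕ) : Set E := {e | ∃ i < n, i % 2 = r ∧ m i = e}

theorem part_finite (m : ℕ → E) (r n : ℕ) : (part m r n).Finite :=
  ((Set.finite_Iio n).image m).subset fun _ ⟨i, hi, _, h⟩ => ⟨i, hi, h⟩

theorem part_hit (m : ℕ → E) {r n : ℕ} (h : n % 2 = r) :
    part m r (n + 1) = insert (m n) (part m r n) := by
  ext e
  constructor
  · rintro ⟨i, hi, h1, rfl⟩
    rcases Nat.lt_succ_iff_lt_or_eq.1 hi with hi | rfl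
    exacts [Or.inr ⟨i, hi, h1, rfl⟩, Or.inl rfl]
  · rintro (rfl | ⟨i, hi, h1, rfl⟩)
    exacts [⟨n, by omega, h, rfl⟩, ⟨i, by omega, h1, rfl⟩]

theorem part_miss (m : ℕ → E) {r n : ℕ} (h : n % 2 ≠ r) : part m r (n + 1) = part m r n := by
  ext e
  constructor
  · rintro ⟨i, hi, h1, rfl⟩
    rcases Nat.lt_succ_iff_lt_or_eq.1 hi with hi | rfl
    exacts [⟨i, hi, h1, rfl⟩, absurd h1 h]
  · rintro ⟨i, hi, h1, rfl⟩
    exact ⟨i, by omega, h1, rfl⟩

theorem exists_play (σ : List E → E) (τ : Set E → Set E → E) : ∃ m : ℕ → E,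
    (∀ n, m (2 * n) = σ ((List.range (2 * n)).map m)) ∧
    ∀ n, m (2 * n + 1) = τ (part m 0 (2 * n + 1)) (part m 1 (2 * n + 1)) := by
  let nx : List E → E := fun l => if l.length % 2 = 0 then σ l else
    τ (part (fun i => l.getD i s(0, 0)) 0 l.length) (part (fun i => l.getD i s(0, 0)) 1 l.length)
  let h : ℕ → List E := fun n => Nat.rec [] (fun _ l => l ++ [nx l]) n
  have e : ∀ n, h n = (List.range n).map fun i => nx (h i) := by
    intro n
    induction n with
    | zero => rfl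
    | succ n ih => rw [List.range_succ, List.map_append, ← ih]; rfl
  have len : ∀ n, (h n).length = n := fun n => by rw [e]; simp
  have pt : ∀ r n, part (fun i => (h n).getD i s(0, 0)) r n = part (fun i => nx (h i)) r n := by
    intro r n
    ext z
    refine exists_congr fun i => and_congr_right fun hi => ?_
    rw [e n]
    simp [List.getD_eq_getElem?_getD, hi]
  refine ⟨fun i => nx (h i), fun n => ?_, fun n => ?_⟩
  · rw [← e]
    exact if_pos (by rw [len]; omega)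
  · show nx (h (2 * n + 1)) = _
    rw [← pt, ← pt]
    simp only [nx, len]
    exact if_neg (by omega)

theorem no_win (h0 : Safe ∅ ∅) (σ : List E → E) : ∃ m : ℕ → E,
    (∀ n, m (2 * n) = σ ((List.range (2 * n)).map m)) ∧
    (∀ n, ¬ (m (2 * n + 1)).IsDiag ∧ ∀ i, i < 2 * n + 1 → m i ≠ m (2 * n + 1)) ∧
    ∀ N, (∀ j, j ≤ N → Even j → ¬ (m j).IsDiag ∧ ∀ i, i < j → m i ≠ m j) →
      HasH (part m 0 (N + 1)) → HasH (part m 1 N) := by
  choose τ hτ using exists_answer
  obtain ⟨m, h1, h2⟩ := exists_play σ τ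
  have ans := fun n => hτ _ _ (part_finite m 0 (2 * n + 1)) (part_finite m 1 (2 * n + 1))
  simp only [← h2] at ans
  refine ⟨m, h1, fun n => ⟨(ans n).1, fun i hi e => ?_⟩, fun N hN hH => ?_⟩
  · rcases Nat.mod_two_eq_zero_or_one i with h | h
    exacts [(ans n).2.1 ⟨i, hi, h, e⟩, (ans n).2.2.1 ⟨i, hi, h, e⟩]
  have step : ∀ n, 2 * n ≤ N → Safe (part m 0 (2 * n)) (part m 1 (2 * n)) →
      Good (part m 0 (2 * n + 1)) (part m 1 (2 * n + 1)) := by
    intro n hn hs
    obtain ⟨a, b⟩ := hN (2 * n) hn (even_two_mul n)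
    rw [part_hit m (by omega), part_miss m (by omega)]
    exact (closed_safe _ _ hs).2.2 _ a (fun ⟨i, hi, _, e⟩ => b i hi e) fun ⟨i, hi, _, e⟩ => b i hi e
  have inv : ∀ n, 2 * n ≤ N → HasH (part m 1 (2 * n)) ∨
      Safe (part m 0 (2 * n)) (part m 1 (2 * n)) := by
    intro n
    induction n with
    | zero =>
      intro _
      refine Or.inr (h0.mono ?_ (Set.empty_subset _))
      rintro _ ⟨i, hi, -⟩
      omega
    | succ n ih =>
      intro hn
      rw [show 2 * (n + 1) = 2 * n + 1 + 1 by ring, part_hit m (r := 1) (by omega),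
        part_miss m (r := 0) (by omega)]
      refine (ans n).2.2.2 ((ih (by omega)).imp (fun h => ?_) (step n (by omega)))
      rwa [part_miss m (by omega)]
  rcases inv (N / 2) (by omega) with h | h
  · refine h.mono ?_
    rintro _ ⟨i, hi, a, rfl⟩
    exact ⟨i, by omega, a, rfl⟩
  · refine absurd (hH.mono ?_) (step _ (by omega) h).1
    rintro _ ⟨i, hi, a, rfl⟩
    exact ⟨i, by omega, a, rfl⟩

theorem hasH_iff {H : SimpleGraph (Fin 6)}
    (hH : ∀ a b, H.Adj a b ↔ a ≠ b ∧ (a.val < 2 ∨ b.val < 2)) (X : Set E) :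
    HasH X ↔ ∃ f : Fin 6 → ℕ, Function.Injective f ∧ ∀ a b, H.Adj a b → s(f a, f b) ∈ X := by
  constructor
  · rintro ⟨p, q, P, hc, h1, h2, h3, h4, h5⟩
    obtain ⟨a, Q, ha, rfl, hQ⟩ := Finset.card_eq_succ.1 hc
    obtain ⟨b, c, d, n1, n2, n3, rfl⟩ := Finset.card_eq_three.1 hQ
    simp only [Finset.mem_insert, Finset.mem_singleton, not_or, forall_eq_or_imp, forall_eq]
      at ha h2 h3 h5
    refine ⟨![p, q, a, b, c, d], fun x y => ?_, fun x y hxy => ?_⟩
    · fin_cases x <;> fin_cases y <;> simp <;> omega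
    · rw [hH] at hxy
      obtain ⟨⟨e1, e2⟩, ⟨e3, e4⟩, ⟨e5, e6⟩, e7, e8⟩ := h5
      fin_cases x <;> fin_cases y <;> simp at hxy <;>
        first | assumption | (rw [Sym2.eq_swap]; assumption)
  · rintro ⟨f, hf, h⟩
    refine ⟨f 0, f 1, ({2, 3, 4, 5} : Finset (Fin 6)).map ⟨f, hf⟩, by rw [Finset.card_map]; rfl,
      fun e => absurd (hf e) (by decide), fun e => ?_, fun e => ?_, h _ _ ((hH _ _).2 (by decide)),
      fun w hw => ?_⟩
    · obtain ⟨x, hx, e⟩ := Finset.mem_map.1 e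
      rw [hf e] at hx
      exact absurd hx (by decide)
    · obtain ⟨x, hx, e⟩ := Finset.mem_map.1 e
      rw [hf e] at hx
      exact absurd hx (by decide)
    · obtain ⟨x, hx, rfl⟩ := Finset.mem_map.1 hw
      exact ⟨h _ _ ((hH _ _).2 ⟨fun e => absurd (e ▸ hx) (by decide), Or.inl (by decide)⟩),
        h _ _ ((hH _ _).2 ⟨fun e => absurd (e ▸ hx) (by decide), Or.inl (by decide)⟩)⟩

end Pool.Agent.Lib.MP_715591_co
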