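import Pool.Agent.Lib.MP_715591_co.Pair

/-!
Soundness of the patterns (building strategies of the second player).
-/

namespace Pool.Agent.Lib.MP_715591_co

open Classical

theorem bookChk_sound {M p q k : ℕ} (h : bookChk M p q k = true) :
    p < 16 ∧ q < 16 ∧ p ≠ q ∧ M.testBit (16 * p + q) = true ∧ ∃ P : Finset ℕ, P.card = k ∧
      ∀ w ∈ P, w < 16 ∧ w ≠ p ∧ w ≠ q ∧ M.testBit (16 * p + w) = true ∧
        M.testBit (16 * q + w) = true := by
  simp only [bookChk, an_eq, cnd_eq, Nat.blt_eq, Nat.beq_eq, Nat.ble_eq, tb_eq, Nat.add_eq,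
    Nat.mul_eq] at h
  obtain ⟨h1, h2, h3, h4, h5⟩ := h
  obtain ⟨P, hc, hP⟩ := exists_of_pc
    (fun i hi => ((tb_row _ _ _).1 ((tb_land _ _ _).1 ((tb_land _ _ _).1 hi).1).1).1) h5
  refine ⟨h1, h2, fun e => by simp [e] at h3, h4, P, hc, fun w hw => ?_⟩
  have := hP w hw
  rw [tb_land, tb_land, tb_row, tb_row, tb_xor, tb_full, tb_lor, tb_one, tb_one] at this
  tauto

/-- the mask is realised in `Y` through `φ` -/
def Rl (φ : ℕ → ℕ) (m M : ℕ) (Q : E → Prop) : Prop :=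
  ∀ a < 16, ∀ b < 16, M.testBit (16 * a + b) = true → a < m ∧ b < m ∧ Q s(φ a, φ b)

theorem book_real {φ : ℕ → ℕ} {m M p q k : ℕ} {Y : Set E} (hφ : Set.InjOn φ (Set.Iio m))
    (hr : Rl φ m M (· ∈ Y)) (h : bookChk M p q k = true) :
    ∃ P : Finset ℕ, P.card = k ∧ Book Y (φ p) (φ q) P := by
  obtain ⟨h1, h2, h3, h4, P, hc, hP⟩ := bookChk_sound h
  obtain ⟨pm, qm, e⟩ := hr p h1 q h2 h4
  have wm : ∀ w ∈ P, w < m := fun w hw => (hr p h1 w (hP w hw).1 (hP w hw).2.2.2.1).2.1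
  refine ⟨P.image φ, by rw [Finset.card_image_of_injOn (hφ.mono fun w hw => wm w hw), hc],
    fun a => h3 (hφ pm qm a), fun a => ?_, fun a => ?_, e, fun w hw => ?_⟩
  · obtain ⟨w, hw, a⟩ := Finset.mem_image.1 a
    exact (hP w hw).2.1 (hφ (wm w hw) pm a)
  · obtain ⟨w, hw, a⟩ := Finset.mem_image.1 a
    exact (hP w hw).2.2.1 (hφ (wm w hw) qm a)
  · obtain ⟨w, hv, rfl⟩ := Finset.mem_image.1 hw
    exact ⟨(hr p h1 w (hP w hv).1 (hP w hv).2.2.2.1).2.2,
      (hr q h2 w (hP w hv).1 (hP w hv).2.2.2.2).2.2⟩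

/-- meaning of a pattern -/
def PatOK (P : ℕ) : Prop :=
  ∀ (X Y : Set E) (φ : ℕ → ℕ), X.Finite → Y.Finite → Set.InjOn φ (Set.Iio (pm P)) →
    SE φ (dl 8 16 (pG P)) ⊆ Y → (∀ e ∈ SE φ (dl 8 16 (pZ P)), e ∉ X) → Thr X Y (pt P) →
    (∀ z ∈ dl 8 4 (pS P), Pi X Y (φ z.1) (pt P - 1)) → Good X Y

theorem tb_marks (ψ f code w : ℕ) : (marks ψ f code).testBit w = true ↔
    ∃ z ∈ dl 8 f code, w = nib ψ z.1 := by
  induction f generalizing code with
  | zero => simp [marks, dl]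
  | succ f ih =>
    have : marks ψ (f + 1) code = cnd (Nat.beq code 0) 0
      (Nat.lor (Nat.shiftLeft 1 (nib ψ (Nat.land code 15))) (marks ψ f (Nat.shiftRight code 8))) :=
      rfl
    rw [this, cnd_eq, dl]
    simp only [Nat.beq_eq]
    split_ifs
    · simp
    · rw [tb_lor, tb_one, ih, List.exists_mem_cons_iff]

theorem tb_star {m k i : ℕ} (h : (star m k).testBit i = true) :
    ∃ w < k, i = 16 * m + w ∨ i = 16 * w + m := by
  induction k with
  | zero => simp [star] at h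
  | succ k ih =>
    have e : star m (k + 1) = Nat.lor (bit2 m k) (star m k) := rfl
    rw [e, tb_lor, tb_bit2] at h
    rcases h with h | h
    · exact ⟨k, by omega, h⟩
    · obtain ⟨w, hw, h⟩ := ih h
      exact ⟨w, by omega, h⟩

theorem SE_of_Rl {φ : ℕ → ℕ} {m M ψ f code : ℕ} {Q : E → Prop} (hr : Rl φ m M Q)
    (h : sub (img ψ 8 f code) M = true) : ∀ e ∈ SE (fun i => φ (nib ψ i)) (dl 8 f code), Q e := by
  rintro _ ⟨z, hz, rfl⟩
  exact (hr _ (nib_lt _ _) _ (nib_lt _ _)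
    (sub_spec h ((tb_img _ _ _ _ _).2 ⟨z, hz, Or.inl rfl⟩))).2.2

theorem casesP_sound {PT : Tr} {j t m G Z S : ℕ} (hP : ∀ i < j, PatOK (PT.get i))
    {X Y : Set E} {φ : ℕ → ℕ} (hX : X.Finite) (hY : Y.Finite) (ht2 : 2 ≤ t)
    (hφ : Set.InjOn φ (Set.Iio (m + 1))) (hG : Rl φ (m + 1) G (· ∈ Y))
    (hZ : Rl φ (m + 1) Z (· ∉ X)) (ht : Thr X Y t)
    (hS : ∀ v, S.testBit v = true → Pi X Y (φ v) (t - 1)) {e : E} (he : e ∉ Y)
    (f code I : ℕ) (h : casesP PT j t m G Z S f code I = true) :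
    Good (insert e X) Y ∨ ((∀ a < 16, ∀ b < 16, a ≤ m → b ≤ m → e = s(φ a, φ b) →
      ¬ I.testBit (16 * a + b) = true) ∧
      (0 < code → ∃ a < 16, ∃ b < 16, a ≤ m ∧ b ≤ m ∧ e = s(φ a, φ b))) := by
  induction f generalizing code I with
  | zero => exact absurd h Bool.false_ne_true
  | succ f ih =>
    have e0 : casesP PT j t m G Z S (f + 1) code I = cnd (Nat.beq code 0) (sub I G)
      (frc (Nat.land code 255) fun id => frc (PT.get id) fun P =>
       frc (Nat.land (Nat.shiftRight code 8) 17592186044415) fun ψ =>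
       frc (img ψ 8 16 (pZ P)) fun W =>
        an (Nat.blt id j) (an (Nat.beq (pc (vals ψ (pm P))) (pm P))
          (an (Nat.blt (vals ψ (pm P)) (Nat.shiftLeft 2 m)) (an (Nat.blt (pt P) t)
          (an (sub (img ψ 8 16 (pG P)) G) (an (sub W Z) (an (sub (marks ψ 4 (pS P)) S)
            (casesP PT j t m G Z S f (Nat.shiftRight code 52) (Nat.land I W))))))))) := rfl
    rw [e0] at h
    simp only [cnd_eq, frc_eq, Nat.beq_eq] at h
    split_ifs at h with c0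
    · exact Or.inr ⟨fun a ha b hb _ _ e1 hI => he (e1 ▸ (hG a ha b hb (sub_spec h hI)).2.2),
        fun h => by omega⟩
    simp only [an_eq, Nat.beq_eq, Nat.blt_eq] at h
    obtain ⟨h1, h2, h3, h4, h5, h6, h7, h8⟩ := h
    set P := PT.get (Nat.land code 255)
    set ψ := Nat.land (Nat.shiftRight code 8) 17592186044415
    by_cases hz : e ∈ SE (fun i => φ (nib ψ i)) (dl 8 16 (pZ P))
    · obtain ⟨z, hz, e1⟩ := hz
      have b1 := (tb_img ψ 8 16 (pZ P) _).2 ⟨z, hz, Or.inl rfl⟩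
      have b2 := (tb_img ψ 8 16 (pZ P) _).2 ⟨z, hz, Or.inr rfl⟩
      obtain ⟨l1, l2, -⟩ := hZ _ (nib_lt _ _) _ (nib_lt _ _) (sub_spec h6 b1)
      refine (ih _ _ h8).imp_right fun k => ⟨fun a ha b hb am bm e2 hI =>
        k.1 a ha b hb am bm e2 ((tb_land _ _ _).2 ⟨hI, ?_⟩),
        fun _ => ⟨_, nib_lt _ _, _, nib_lt _ _, by omega, by omega, e1⟩⟩
      have am' : a ∈ Set.Iio (m + 1) := Nat.lt_succ_of_le am
      have bm' : b ∈ Set.Iio (m + 1) := Nat.lt_succ_of_le bm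
      rcases Sym2.eq_iff.1 (e2.symm.trans e1) with ⟨u, v⟩ | ⟨u, v⟩
      · rw [hφ am' l1 u, hφ bm' l2 v]; exact b1
      · rw [hφ am' l2 u, hφ bm' l1 v]; exact b2
    · left
      have lt : ∀ i < pm P, nib ψ i < m + 1 := fun i hi => by
        rw [Nat.shiftLeft_eq', Nat.shiftLeft_eq, mul_comm, ← pow_succ] at h3
        exact bits_of_lt h3 ((tb_vals _ _ _).2 ⟨i, hi, rfl⟩)
      refine hP _ h1 _ _ (fun i => φ (nib ψ i)) (hX.insert e) hY
        (fun a ha b hb u => inj_of_pc h2 ha hb (hφ (lt a ha) (lt b hb) u)) (SE_of_Rl hG h5) ?_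
        (ht.step h4 he) fun z hz => (hS _ (sub_spec h7 ((tb_marks _ _ _ _).2 ⟨z, hz, rfl⟩))).step
          (show pt P - 1 + 1 ≤ t - 1 by omega) he
      rintro g hg (rfl | a)
      exacts [hz hg, SE_of_Rl hZ h6 g hg a]

theorem Rl_id {φ : ℕ → ℕ} {m code M : ℕ} {Q : E → Prop} (hQ : ∀ e ∈ SE φ (dl 8 16 code), Q e)
    (hs : Sub (img idm 8 16 code) M) (h0 : Nat.shiftRight M (Nat.mul 16 m) = 0) :
    Rl φ m (img idm 8 16 code) Q := by
  have lt : ∀ a b, (img idm 8 16 code).testBit (16 * a + b) = true → b < 16 → a < m := by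
    intro a b h hb
    by_contra hh
    have := hs _ h
    rw [show 16 * a + b = 16 * m + (16 * a + b - 16 * m) by omega, ← Nat.testBit_shiftRight,
      show M >>> (16 * m) = 0 from h0] at this
    simp at this
  intro a ha b hb h
  refine ⟨lt a b h hb, lt b a (Sy_img _ _ _ _ a ha b hb h) ha, hQ _ ?_⟩
  obtain ⟨z, hz, ⟨rfl, rfl⟩ | ⟨rfl, rfl⟩⟩ := img_cases ha hb h
  · exact ⟨z, hz, by rw [idm, nib_id (dl_lt hz).1, nib_id (dl_lt hz).2]⟩
  · exact ⟨z, hz, by rw [idm, nib_id (dl_lt hz).1, nib_id (dl_lt hz).2, Sym2.eq_swap]⟩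

theorem Rl.ins {φ : ℕ → ℕ} {m G x y : ℕ} {Y : Set E} (h : Rl φ m G (· ∈ Y)) (hx : x < m)
    (hy : y < m) (x16 : x < 16) (y16 : y < 16) :
    Rl φ m (Nat.lor G (bit2 x y)) (· ∈ insert s(φ x, φ y) Y) := by
  intro a ha b hb hh
  rw [tb_lor, tb_bit2] at hh
  rcases hh with hh | hh | hh
  · exact ⟨(h a ha b hb hh).1, (h a ha b hb hh).2.1, Or.inr (h a ha b hb hh).2.2⟩
  · obtain ⟨rfl, rfl⟩ : a = x ∧ b = y := by omega
    exact ⟨hx, hy, Or.inl rfl⟩
  · obtain ⟨rfl, rfl⟩ : a = y ∧ b = x := by omega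
    exact ⟨hy, hx, Or.inl Sym2.eq_swap⟩

theorem patChk_sound {PT : Tr} {j D : ℕ} (hP : ∀ i < j, PatOK (PT.get i))
    (h : patChk PT j D = true) : PatOK (PT.get j) := by
  intro X Y φ hX hY hφ hG hZ ht hS
  simp only [patChk, frc_eq, an_eq, cnd_eq, Nat.ble_eq, Nat.beq_eq, Nat.blt_eq] at h
  obtain ⟨h1, h2, h3, h⟩ := h
  set P := PT.get j
  have rG := Rl_id (Q := (· ∈ Y)) hG (fun i hi => (tb_lor _ _ _).2 (Or.inl hi)) h2
  have rZ := Rl_id (Q := (· ∉ X)) hZ (fun i hi => (tb_lor _ _ _).2 (Or.inr hi)) h2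
  have rS : ∀ v, (marks idm 4 (pS P)).testBit v = true → v < pm P ∧ Pi X Y (φ v) (pt P - 1) := by
    intro v hv
    rw [Nat.shiftLeft_eq', Nat.one_shiftLeft] at h3
    refine ⟨bits_of_lt h3 hv, ?_⟩
    obtain ⟨z, hz, rfl⟩ := (tb_marks _ _ _ _).1 hv
    rw [idm, nib_id (dl_lt hz).1]
    exact hS z hz
  have x16 := nib_lt D 1
  have y16 := nib_lt D 2
  split_ifs at h
  · simp only [an_eq, Nat.ble_eq, Nat.blt_eq, tb_eq, Nat.add_eq, Nat.mul_eq] at h
    obtain ⟨a1, a2, a3, a4⟩ := h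
    obtain ⟨l1, l2, l3⟩ := rZ _ x16 _ y16 a3
    obtain ⟨Q, q1, q2⟩ := book_real hφ (rG.ins l1 l2 x16 y16) a4
    exact ⟨ht.noH a1, _, fun a => absurd (hφ l1 l2 (Sym2.mk_isDiag_iff.1 a)) (by omega), l3,
      Or.inl ⟨_, _, Q, q1, q2⟩⟩
  · simp only [an_eq, Nat.ble_eq, tb_eq] at h
    obtain ⟨a1, a2, a3⟩ := h
    exact good_of_mach hX (ht.mono a1 subset_rfl) ((rS _ a2).2.mono (by omega) subset_rfl)
      (book_real hφ rG a3)
  · simp only [an_eq, Nat.ble_eq, Nat.blt_eq, tb_eq, Nat.add_eq, Nat.mul_eq] at h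
    obtain ⟨⟨a1, a0⟩, a2, a3, a4⟩ := h
    obtain ⟨n, hn⟩ := exists_bound hX
    obtain ⟨k, hk⟩ := ((Set.finite_Iio (pm P)).image φ).bddAbove
    set φ' := Function.update φ (pm P) (n + k + 1) with hφ'
    have e1 : ∀ a < pm P, φ' a = φ a := fun a ha => Function.update_of_ne (by omega) _ _
    have e2 : φ' (pm P) = n + k + 1 := Function.update_self _ _ _
    have inj : Set.InjOn φ' (Set.Iio (pm P + 1)) := by
      intro a ha b hb u
      rcases Nat.lt_succ_iff_lt_or_eq.1 ha with ha | rfl <;>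
        rcases Nat.lt_succ_iff_lt_or_eq.1 hb with hb | rfl
      · rw [e1 a ha, e1 b hb] at u; exact hφ ha hb u
      · rw [e1 a ha, e2] at u; have := hk ⟨a, ha, rfl⟩; omega
      · rw [e1 b hb, e2] at u; have := hk ⟨b, hb, rfl⟩; omega
      · rfl
    have up : ∀ {M : ℕ} {Q : E → Prop}, Rl φ (pm P) M Q → Rl φ' (pm P + 1) M Q := by
      intro M Q h a ha b hb hh
      obtain ⟨l1, l2, l3⟩ := h a ha b hb hh
      exact ⟨by omega, by omega, by rwa [e1 a l1, e1 b l2]⟩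
    have rZ' : Rl φ' (pm P + 1) (Nat.lor (img idm 8 16 (pZ P)) (star (pm P) (pm P))) (· ∉ X) := by
      intro a ha b hb hh
      rcases (tb_lor _ _ _).1 hh with hh | hh
      · exact up rZ a ha b hb hh
      · obtain ⟨w, hw, hh | hh⟩ := tb_star hh
        · obtain ⟨rfl, rfl⟩ : a = pm P ∧ b = w := by omega
          exact ⟨by omega, by omega, fun u => by have := hn _ _ u; omega⟩
        · obtain ⟨rfl, rfl⟩ : a = w ∧ b = pm P := by omega
          exact ⟨by omega, by omega, fun u => by have := hn _ _ (Sym2.eq_swap ▸ u); omega⟩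
    obtain ⟨l1, l2, l3⟩ := rZ' _ x16 _ y16 a3
    refine ⟨ht.noH (by omega), _,
      fun a => absurd (inj l1 l2 (Sym2.mk_isDiag_iff.1 a)) (by omega), l3,
      Or.inr (Safe.intro hX (ht.noH (by omega)) fun e _ _ he => ?_)⟩
    refine (casesP_sound hP hX (hY.insert _) a1 inj ((up rG).ins l1 l2 x16 y16) rZ'
      (ht.mono le_rfl (Set.subset_insert _ _)) (fun v hv => ?_) he _ _ _ a4).resolve_right ?_
    · rw [e1 v (rS v hv).1]
      exact (rS v hv).2.mono le_rfl (Set.subset_insert _ _)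
    · rintro ⟨u1, u2⟩
      obtain ⟨a, ha, b, hb, am, bm, u⟩ := u2 a0
      refine u1 a ha b hb am bm u ?_
      rw [Nat.shiftLeft_eq', Nat.one_shiftLeft, Nat.sub_eq, Nat.testBit_two_pow_sub_one,
        decide_eq_true_eq]
      omega

theorem chkP_sound {PT : Tr} {hi : ℕ} {l : List ℕ} {lo : ℕ} (h : chkP PT hi l lo = true)
    (h0 : ∀ i < lo, PatOK (PT.get i)) : ∀ i < hi, PatOK (PT.get i) := by
  induction l generalizing lo with
  | nil =>
    have : Nat.beq lo hi = true := h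
    rwa [← Nat.eq_of_beq_eq_true this]
  | cons z l ih =>
    have : an (patChk PT lo z) (frc (Nat.succ lo) (chkP PT hi l)) = true := h
    rw [an_eq, frc_eq] at this
    refine ih this.2 fun i hi => ?_
    rcases Nat.lt_succ_iff_lt_or_eq.1 hi with hi | rfl
    exacts [h0 i hi, patChk_sound h0 this.1]

end Pool.Agent.Lib.MP_715591_co
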