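import Pool.Agent.Lib.MP_715591_co.Env

/-!
Soundness of the check of positions.
-/

namespace Pool.Agent.Lib.MP_715591_co

open Classical

/-- meaning of a record of the table -/
def NodeOK (N : ℕ) : Prop :=
  Safe (SE id (dl 16 32 N)) (SE id (dl 16 32 (Nat.shiftRight N 8)))

theorem SE_congr {φ ψ : ℕ → ℕ} (h : ∀ i < 16, φ i = ψ i) (st f code : ℕ) :
    SE φ (dl st f code) = SE ψ (dl st f code) := by
  ext e
  refine exists_congr fun z => and_congr_right fun hz => ?_
  rw [h _ (dl_lt hz).1, h _ (dl_lt hz).2]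

theorem pb_SE (π : ℕ ≃ ℕ) (l : List (ℕ × ℕ)) : pb π.symm (SE id l) = SE π l := by
  ext e
  refine exists_congr fun z => and_congr_right fun _ => ⟨fun h => ?_, fun h => ?_⟩
  · rw [← map_map_symm π e, h]; rfl
  · rw [h]; simp

theorem NodeOK.img {N ψ : ℕ} (h : NodeOK N) (hψ : pc (vals ψ 16) = 16) :
    Safe (ES (img ψ 16 32 N)) (ES (img ψ 16 32 (Nat.shiftRight N 8))) := by
  have inj := inj_of_pc hψ
  obtain ⟨π, hπ⟩ := Cardinal.extend_function_of_lt (s := Set.Iio 16)
    ⟨fun i => nib ψ i.1, fun a b h => Subtype.ext (inj a.2 b.2 h)⟩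
    (by rw [Cardinal.mk_nat]; exact (Set.finite_Iio 16).lt_aleph0) ⟨Equiv.refl ℕ⟩
  have e : ∀ i < 16, nib ψ i = π i := fun i hi => (hπ ⟨i, hi⟩).symm
  rw [ES_img, ES_img, SE_congr e, SE_congr e, ← pb_SE, ← pb_SE]
  exact Safe.to_pb _ h

theorem kids_sound {T : Tr} {j X Y c : ℕ} (hT : ∀ i < j, NodeOK (T.get i)) (sX : Sy X)
    (ht : Thr (ES X) (ES Y) c) (hc : 2 ≤ c) {x y : ℕ} (hx : x < 16) (hy : y < 16)
    (he : s(x, y) ∉ ES Y) (f code U : ℕ) (h : kids T j X Y f code U = true)
    (hU : U.testBit (16 * x + y) = true) : Good (insert s(x, y) (ES X)) (ES Y) := by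
  induction f generalizing code U with
  | zero => exact absurd h Bool.false_ne_true
  | succ f ih =>
    have e0 : kids T j X Y (f + 1) code U = cnd (Nat.beq code 0) (Nat.beq U 0)
      (frc (Nat.land code 15) fun x => frc (Nat.land (Nat.shiftRight code 4) 15) fun y =>
       frc (Nat.land (Nat.shiftRight code 8) 15) fun p =>
       frc (Nat.land (Nat.shiftRight code 12) 15) fun q =>
       frc (Nat.land (Nat.shiftRight code 16) 16383) fun id =>
       frc (Nat.land (Nat.shiftRight code 30) 18446744073709551615) fun ψ =>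
       frc (T.get id) fun N => frc (bit2 x y) fun e => frc (Nat.lor X e) fun X1 =>
        an (Nat.blt id j) (an (Nat.beq (pc (vals ψ 16)) 16) (an (Nat.blt p q)
          (an (cnd (tb X1 (Nat.add (Nat.mul 16 p) q)) false true) (an (sub X1 (img ψ 16 32 N))
            (an (sub (img ψ 16 32 (Nat.shiftRight N 8)) (Nat.lor Y (bit2 p q)))
              (frc (Nat.shiftRight code 94) fun z => frc (Nat.xor U (Nat.land U e)) fun W =>
                kids T j X Y f z W))))))) := rfl
    rw [e0] at h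
    simp only [cnd_eq, frc_eq, Nat.beq_eq] at h
    by_cases c0 : code = 0
    · rw [if_pos c0, Nat.beq_eq] at h
      rw [h] at hU
      simp at hU
    rw [if_neg c0] at h
    simp only [an_eq, Nat.beq_eq, Nat.blt_eq, tb_eq, Nat.add_eq, Nat.mul_eq] at h
    obtain ⟨h1, h2, h3, h4, h5, h6, h7⟩ := h
    have l1 : Nat.land code 15 < 16 := Nat.lt_succ_of_le Nat.and_le_right
    have l2 : Nat.land (Nat.shiftRight code 4) 15 < 16 := Nat.lt_succ_of_le Nat.and_le_right
    have l3 : Nat.land (Nat.shiftRight code 8) 15 < 16 := Nat.lt_succ_of_le Nat.and_le_right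
    have l4 : Nat.land (Nat.shiftRight code 12) 15 < 16 := Nat.lt_succ_of_le Nat.and_le_right
    generalize Nat.land code 15 = a at *
    generalize Nat.land (Nat.shiftRight code 4) 15 = b at *
    generalize Nat.land (Nat.shiftRight code 8) 15 = p at *
    generalize Nat.land (Nat.shiftRight code 12) 15 = q at *
    by_cases hb : (bit2 a b).testBit (16 * x + y) = true
    · have e : s(x, y) = s(a, b) := by
        rw [tb_bit2] at hb
        exact Sym2.eq_iff.2 (by omega)
      rw [e] at he ⊢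
      refine ⟨(ht.step hc he).noH le_rfl, s(p, q), by simp; omega, fun k => ?_, Or.inr ?_⟩
      · rw [← ES_ins X l1 l2, (sX.ins a b l1 l2).mem] at k
        rw [if_pos k.2.2] at h4
        exact Bool.false_ne_true h4
      · rw [← ES_ins X l1 l2, ← ES_ins Y l3 l4]
        exact ((hT _ h1).img h2).mono (ES_sub h5) (ES_sub h6)
    · refine ih _ _ h7 ?_
      rw [tb_xor, tb_land]
      exact fun k => hb (k.1 hU).2

theorem groups_sound {PT : Tr} {np X Y m c crit : ℕ} {k : ℕ → Bool}
    (hP : ∀ i < np, PatOK (PT.get i)) (hm : m ≤ 16) (sX : Sy X)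
    (hX : ∀ a b, s(a, b) ∈ ES X → a < m) (hd : Nat.land X Y = 0) (hd' : ∀ e ∈ ES X, e ∉ ES Y)
    (ht : Thr (ES X) (ES Y) c) {x y : ℕ} (hxy : x < y) (hy : y < m) (he : s(x, y) ∉ ES Y)
    (hcr : ¬ crit.testBit (16 * x + y) = true → Thr (insert s(x, y) (ES X)) (ES Y) c)
    (f code U : ℕ) (h : groups PT np X Y (RL X Y m) c crit k f code U = true)
    (hU : U.testBit (16 * x + y) = true) : Good (insert s(x, y) (ES X)) (ES Y) ∨
      ∃ W, k W = true ∧ W.testBit (16 * x + y) = true := by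
  induction f generalizing code U with
  | zero => exact absurd h Bool.false_ne_true
  | succ f ih =>
    have e0 : groups PT np X Y (RL X Y m) c crit k (f + 1) code U = cnd (Nat.beq code 0) (k U)
      (frc (Nat.land code 255) fun id => frc (PT.get id) fun P =>
       frc (Nat.land (Nat.shiftRight code 8) 17592186044415) fun ψ => frc (pt P) fun t =>
       frc (img ψ 8 16 (pZ P)) fun Z =>
       frc (critS X Y (RL X Y m) (Nat.sub t 1) ψ 4 (pS P) (cnd (Nat.beq t c) (Nat.lor crit Z) Z))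
        fun bad =>
        an (Nat.blt id np) (an (Nat.beq (pc (vals ψ (pm P))) (pm P)) (an (Nat.ble t c)
          (an (sub (img ψ 8 16 (pG P)) Y) (an (Nat.beq (Nat.land Z X) 0) (an (Nat.blt bad flag)
            (frc (Nat.shiftRight code 52) fun z => frc (Nat.land U bad) fun W =>
              groups PT np X Y (RL X Y m) c crit k f z W))))))) := rfl
    rw [e0, cnd_eq] at h
    by_cases c0 : Nat.beq code 0 = true
    · rw [if_pos c0] at h
      exact Or.inr ⟨U, h, hU⟩
    rw [if_neg c0] at h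
    simp only [frc_eq, an_eq, Nat.beq_eq, Nat.ble_eq, Nat.sub_eq] at h
    obtain ⟨h1, h2, h3, h4, h5, h6, h7⟩ := h
    rw [Nat.blt_eq] at h1
    have hP' := hP _ h1
    generalize PT.get (Nat.land code 255) = P at *
    generalize Nat.land (Nat.shiftRight code 8) 17592186044415 = ψ at *
    obtain ⟨s1, s2⟩ := critS_spec X Y (RL X Y m) (pt P - 1) ψ 4 (pS P)
      (cnd (Nat.beq (pt P) c) (Nat.lor crit (img ψ 8 16 (pZ P))) (img ψ 8 16 (pZ P)))
    generalize critS X Y (RL X Y m) (pt P - 1) ψ 4 (pS P)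
      (cnd (Nat.beq (pt P) c) (Nat.lor crit (img ψ 8 16 (pZ P))) (img ψ 8 16 (pZ P))) = bad at *
    by_cases hb : bad.testBit (16 * x + y) = true
    · exact ih _ _ h7 ((tb_land _ _ _).2 ⟨hU, hb⟩)
    left
    simp only [cnd_eq, Nat.beq_eq] at s1
    refine hP' _ _ (nib ψ) ((ES_finite X).insert _) (ES_finite Y) (inj_of_pc h2)
      (ES_img _ _ _ _ ▸ ES_sub h4) ?_ ?_ fun z hz => ?_
    · rw [← ES_img]
      rintro g hg (rfl | a)
      · refine hb (s1 _ ?_)
        have := ((Sy_img _ _ _ _).mem.1 hg).2.2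
        split_ifs
        exacts [(tb_lor _ _ _).2 (Or.inr this), this]
      · obtain ⟨u, hu, v, hv, b, rfl⟩ := hg
        have := (tb_land _ X _).2 ⟨b, (sX.mem.1 a).2.2⟩
        rw [h5] at this
        simp at this
    · by_cases c1 : pt P = c
      · rw [if_pos c1] at s1
        exact c1 ▸ hcr fun a => hb (s1 _ ((tb_lor _ _ _).2 (Or.inl a)))
      · exact ht.step (by omega) he
    · obtain ⟨u, hu⟩ := s2 z hz
      exact pi_sound hm (nib_lt _ _) sX hX hd' hu (no_flag h6) hxy hy he hb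

theorem canon_bit {n x y : ℕ} (hn : n ≤ 14) (hxy : x < y) (h : y ≤ n ∨ (x = n ∧ y = n + 1)) :
    (canon n).testBit (16 * x + y) = true := by
  have : allN 15 (fun n => allN 16 fun y => allN y fun x =>
    cnd (Nat.ble y n || (Nat.beq x n && Nat.beq y (n + 1))) (tb (canon n) (16 * x + y)) true)
      = true := by decide +kernel
  have := allN_spec (allN_spec (allN_spec this n (by omega)) y (by omega)) x hxy
  rwa [cnd_eq, if_pos (by simpa using h), tb_eq] at this

theorem nodeA_sound {PT T : Tr} {np j X Y n c g ch : ℕ} (hP : ∀ i < np, PatOK (PT.get i))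
    (hT : ∀ i < j, NodeOK (T.get i)) (sX : Sy X) (sY : Sy Y)
    (h : nodeA PT T np j X Y n c g ch = true) : Safe (ES X) (ES Y) := by
  simp only [nodeA, an_eq, frc_eq, rowsK_eq, Nat.ble_eq, Nat.beq_eq, Nat.add_eq] at h
  obtain ⟨h1, h2, h3, h4, h5, h6⟩ := h
  have sup : ∀ a b, b < 16 → (Nat.lor X Y).testBit (16 * a + b) = true → a < n := by
    intro a b hb h
    by_contra hh
    rw [show 16 * a + b = 16 * n + (16 * a + b - 16 * n) by omega, ← Nat.testBit_shiftRight,
      show Nat.lor X Y >>> (16 * n) = 0 from h4] at h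
    simp at h
  have hX : ∀ a b, s(a, b) ∈ ES X → a < n := fun a b h =>
    sup a b (sX.mem.1 h).2.1 ((tb_lor _ _ _).2 (Or.inl (sX.mem.1 h).2.2))
  have hY : ∀ a b, s(a, b) ∈ ES Y → a < n := fun a b h =>
    sup a b (sY.mem.1 h).2.1 ((tb_lor _ _ _).2 (Or.inr (sY.mem.1 h).2.2))
  have hX' : ∀ a b, s(a, b) ∈ ES X → a < n + 2 := fun a b h => by have := hX a b h; omega
  have dj : ∀ e ∈ ES X, e ∉ ES Y := by
    rintro _ ⟨x, hx, y, hy, h1, rfl⟩ h2
    have := (tb_land X Y _).2 ⟨h1, (sY.mem.1 h2).2.2⟩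
    rw [h3] at this
    simp at this
  obtain ⟨t1, t2⟩ := thr_sound (m := n + 2) (by omega) sX hX' dj Sub.rfl (no_flag h5)
  refine Safe.intro_can n (ES_finite X) (t1.noH (by omega)) hX hY fun x y hxy hc e1 e2 => ?_
  have hy : y < n + 2 := by omega
  refine (groups_sound hP (by omega) sX hX' h3 dj t1 hxy hy e2 (t2 x y hxy hy e2) _ _ _ h6 ?_).elim
    id fun ⟨W, w1, w2⟩ => kids_sound hT sX t1 h2 (by omega) (by omega) e2 _ _ _ w1 w2
  rw [tb_xor, tb_land, tb_lor]
  intro k
  rcases (k.1 (canon_bit h1 hxy hc)).2 with a | a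
  exacts [e1 ⟨x, by omega, y, by omega, a, rfl⟩, e2 ⟨x, by omega, y, by omega, a, rfl⟩]

theorem nodeChk_sound {PT T : Tr} {np j h ch : ℕ} (hP : ∀ i < np, PatOK (PT.get i))
    (hT : ∀ i < j, NodeOK (T.get i)) (hc : nodeChk PT T np j h ch = true) : NodeOK (T.get j) := by
  simp only [nodeChk, frc_eq, cnd_eq] at hc
  have e : ∀ i < 16, nib idm i = id i := fun i hi => nib_id hi
  rw [NodeOK, ← SE_congr e, ← SE_congr e, ← ES_img, ← ES_img]
  split_ifs at hc
  · exact nodeB_sound (Sy_img _ _ _ _) (Sy_img _ _ _ _) (nib_lt _ _) hc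
  · exact nodeA_sound hP hT (Sy_img _ _ _ _) (Sy_img _ _ _ _) hc

theorem chkL_sound {PT T : Tr} {np hi : ℕ} {l : List (ℕ × ℕ)} {lo : ℕ}
    (hP : ∀ i < np, PatOK (PT.get i)) (h : chkL PT T np hi l lo = true)
    (h0 : ∀ i < lo, NodeOK (T.get i)) : ∀ i < hi, NodeOK (T.get i) := by
  induction l generalizing lo with
  | nil =>
    have : Nat.beq lo hi = true := h
    rwa [← Nat.eq_of_beq_eq_true this]
  | cons z l ih =>
    have : an (nodeChk PT T np lo z.1 z.2) (frc (Nat.succ lo) (chkL PT T np hi l)) = true := h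
    rw [an_eq, frc_eq] at this
    refine ih this.2 fun i hi => ?_
    rcases Nat.lt_succ_iff_lt_or_eq.1 hi with hi | rfl
    exacts [h0 i hi, nodeChk_sound hP h0 this.1]

end Pool.Agent.Lib.MP_715591_co
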